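import Pool.Agent.Q63.Hel.Defs

/-!
Windows of frequencies of a helical part without some of the frequencies.
-/

namespace Pool.Agent.Q63.Hel2

open H459R3.NS Pool.Agent.Q63.Win Pool.Agent.Q63.Hel

open scoped Classical in
/-- `∑ |k|^(2 s) |v̂^σ(k)|²` over the frequencies `k` with `K^θ < |k| ≤ K` which are not in `F`,
where `v^σ` is the helical part of `v` with the sign `σ`. -/
noncomputable def helWindowOff (σ s θ K : ℝ) (F : Finset K3) (v : V → V) : ℝ :=
  ∑' k : K3, if K ^ θ < len k ∧ len k ≤ K ∧ k ∉ F then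
    len k ^ (2 * s) * ∑ i, ‖hel σ (fun l j => fr (fun y => v y j) l) k i‖ ^ 2 else 0

end Pool.Agent.Q63.Hel2
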