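import Pool.Agent.Q63.Hel2.Thin
import Pool.Agent.Q63.Win2.Asy

/-!
The regularity criterion in terms of the helical parts, scale by scale and off two-dimensional sets
of frequencies.
-/

open MeasureTheory Set Filter Topology
open scoped ENNReal

namespace Pool.Agent.Q63.Hel2

open H459R3.NS Pool.Agent.Q63.Win Pool.Agent.Q63.Hel

theorem X2_integrable {m : K3 → ℝ} {T ν : ℝ} {c : ℝ → Fam} (h : FSol m T c) (hm : Pol m)
    (hν : 0 < ν) (hmν : ∀ k, 36 * ν * (N k : ℝ) ^ 2 ≤ m k) {a : ℝ} (ha : 0 < a) (haT : a < T) :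
    IntegrableOn (fun t => XX (fun k => (N k : ℝ) ^ 2) (amp (c t))) (Ico a T) := by
  have hX0 : ∀ t, 0 ≤ XX (fun k => (N k : ℝ) ^ 2) (amp (c t)) := fun t =>
    XX_nonneg fun k => by positivity
  have hc : ContinuousOn (fun τ => XX (fun k => (N k : ℝ) ^ 2) (amp (c τ))) (Ioo 0 T) := fun τ hτ =>
    (h.hasDerivAt_XX hm (pol_pow 2) hτ).continuousAt.continuousWithinAt
  set b : ℕ → ℝ := fun n => T - (T - a) / ((n : ℝ) + 1) with hb
  have hbT : ∀ n, b n < T := fun n => by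
    have : 0 < (T - a) / ((n : ℝ) + 1) := div_pos (by linarith) (by positivity)
    rw [hb]
    simp only
    linarith
  have hba : ∀ n, a ≤ b n := fun n => by
    have : (T - a) / ((n : ℝ) + 1) ≤ T - a := by
      apply div_le_self (by linarith)
      have : (0 : ℝ) ≤ n := Nat.cast_nonneg _
      linarith
    rw [hb]
    simp only
    linarith
  have hlim : Tendsto b atTop (𝓝 T) := by
    have h1 : Tendsto (fun n : ℕ => (T - a) / ((n : ℝ) + 1)) atTop (𝓝 0) :=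
      tendsto_const_div_atTop_nhds_zero_nat (T - a) |>.comp (tendsto_add_atTop_nat 1) |>.congr
        fun n => by simp
    simpa using tendsto_const_nhds.sub h1
  have hfi : ∀ n, IntegrableOn (fun t => XX (fun k => (N k : ℝ) ^ 2) (amp (c t)))
      (Ioc a (b n)) := by
    intro n
    refine IntegrableOn.mono_set ?_ Ioc_subset_Icc_self
    exact (hc.mono fun τ hτ => ⟨ha.trans_le hτ.1, hτ.2.trans_lt (hbT n)⟩).integrableOn_Icc
  have hI := integrableOn_Ioc_of_intervalIntegral_norm_bounded_right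
    (I := XX (fun _ => 1) (amp (c a)) / (72 * ν)) hfi hlim (Filter.Eventually.of_forall fun n => by
      have h1 := Win2.int_X2 h hm hν hmν ha ⟨hba n, hbT n⟩
      rw [intervalIntegral.integral_of_le (hba n)] at h1
      refine le_trans (le_of_eq ?_) h1
      refine setIntegral_congr_fun measurableSet_Ioc fun t _ => ?_
      rw [Real.norm_eq_abs, abs_of_nonneg (hX0 t)])
  have h2 : IntegrableOn (fun t => XX (fun k => (N k : ℝ) ^ 2) (amp (c t))) (Icc a T) := by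
    rwa [integrableOn_Icc_iff_integrableOn_Ioc]
  exact h2.mono_set Ico_subset_Icc_self

theorem helWindowOff_ge {θ s σ : ℝ} (hs : 0 ≤ s) {j₀ j : ℕ} (hj : ¬ j + 1 < j₀)
    {F : ℕ → Finset K3} (σ' : ℕ → ℝ) (hσ' : σ' j = σ) (v : V → V) :
    ∑ l ∈ box (2 ^ j) \ box (kap θ j₀ j), (N l : ℝ) ^ (2 * s) *
      out F (fun j => amp (hel (σ' j) (cof v))) j l ^ 2
      ≤ helWindowOff σ s θ (2 ^ (j + 1)) (F j) v := by
  classical
  have hnn : ∀ k : K3, 0 ≤ (if ((2 : ℝ) ^ (j + 1)) ^ θ < len k ∧ len k ≤ (2 : ℝ) ^ (j + 1) ∧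
      k ∉ F j then
      len k ^ (2 * s) * ∑ i, ‖hel σ (fun l j => fr (fun y => v y j) l) k i‖ ^ 2 else 0) := by
    intro k
    have := len_nonneg k
    split_ifs
    · have : 0 ≤ ∑ i, ‖hel σ (fun l j => fr (fun y => v y j) l) k i‖ ^ 2 :=
        Finset.sum_nonneg fun _ _ => by positivity
      positivity
    · exact le_rfl
  have hsum : Summable fun k : K3 =>
      (if ((2 : ℝ) ^ (j + 1)) ^ θ < len k ∧ len k ≤ (2 : ℝ) ^ (j + 1) ∧ k ∉ F j then
      len k ^ (2 * s) * ∑ i, ‖hel σ (fun l j => fr (fun y => v y j) l) k i‖ ^ 2 else 0) := by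
    refine summable_of_ne_finset_zero (s := box (2 ^ (j + 1))) fun k hk => ?_
    rw [if_neg]
    rintro ⟨-, h, -⟩
    rw [mem_box, not_le] at hk
    have h1 : (N k : ℝ) ≤ (2 : ℝ) ^ (j + 1) := (len_ge k).trans h
    have h2 : N k ≤ 2 ^ (j + 1) := by exact_mod_cast h1
    omega
  unfold helWindowOff
  refine le_trans ?_ (hsum.sum_le_tsum (box (2 ^ j) \ box (kap θ j₀ j)) fun k _ => hnn k)
  refine Finset.sum_le_sum fun l hl => ?_
  by_cases hlF : l ∈ F j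
  · have : out F (fun j => amp (hel (σ' j) (cof v))) j l = 0 := by
      unfold out
      rw [if_pos hlF]
    rw [this]
    simpa using hnn l
  · rw [Finset.mem_sdiff, mem_box, mem_box, not_le] at hl
    have a1 := len_ge l
    have a2 := len_le_two l
    have a3 : ((2 : ℝ) ^ (j + 1)) ^ θ < len l := by
      refine lt_of_lt_of_le ?_ a1
      have h1 := hl.2
      unfold kap at h1
      rw [if_neg hj] at h1
      exact (Nat.floor_lt (by positivity)).1 h1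
    have a4 : len l ≤ (2 : ℝ) ^ (j + 1) := by
      have : (N l : ℝ) ≤ 2 ^ j := by exact_mod_cast hl.1
      rw [pow_succ]
      linarith
    have hout : out F (fun j => amp (hel (σ' j) (cof v))) j l = amp (hel σ (cof v)) l := by
      unfold out
      rw [if_neg hlF]
      show amp (hel (σ' j) (cof v)) l = _
      rw [hσ']
    rw [if_pos ⟨a3, a4, hlF⟩, hout, amp_sq]
    have : 0 ≤ ∑ i, ‖hel σ (cof v) l i‖ ^ 2 := Finset.sum_nonneg fun _ _ => by positivity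
    show (N l : ℝ) ^ (2 * s) * ∑ i, ‖hel σ (cof v) l i‖ ^ 2 ≤
      len l ^ (2 * s) * ∑ i, ‖hel σ (cof v) l i‖ ^ 2
    gcongr

/-- the general criterion -/
theorem crit' {ν T : ℝ} {u : ℝ → V → V} {p : ℝ → V → ℝ} (h : IsSol ν T u p) (hν : 0 < ν)
    {θ : ℝ} (hθ0 : 0 < θ) (hθ : θ < 4 / 5) {s : ℝ} (hs1 : 1 / 2 ≤ s) (hs2 : s < 5 / 2)
    {t₀ : ℝ} (ht₀ : t₀ ∈ Ico 0 T)
    {β g : ℝ → ℝ} {j₀ : ℕ} {A : ℝ} (hβ : ∀ t ∈ Ioo t₀ T, 0 ≤ β t ∧ ∀ j : ℕ, j₀ ≤ j →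
      ∃ (σ : ℝ) (F : Finset K3), (σ = 1 ∨ σ = -1) ∧ (F.card : ℝ) ≤ A * (2 ^ j) ^ 2 ∧
        helWindowOff σ s θ (2 ^ j) F (u t) ≤ β t ^ 2)
    (hg0 : ∀ t, 0 ≤ g t) (hgi : IntegrableOn g (Ioo t₀ T))
    (hg : ∀ t ∈ Ioo t₀ T, ∀ x : ℝ, 0 ≤ x → 156 * Ch s * β t * x ^ (5 / 2 - s) ≤ ν * x ^ 2 + g t) :
    ∃ C, ∀ t ∈ Ico 0 T, ∀ x i, |u t x i| ≤ C := by
  have hf := fsol_of_isSol h
  have hm := msym_pol (ν := ν) hν.le
  have hmν := msym_ge (ν := ν) hν.le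
  set c : ℝ → Fam := fun t => cof (u t) with hc
  set a : ℝ := (t₀ + T) / 2 with ha
  have ha0 : 0 < a := by rw [ha]; linarith [ht₀.1, ht₀.2]
  have haT : a < T := by rw [ha]; linarith [ht₀.2]
  have hta : t₀ < a := by rw [ha]; linarith [ht₀.2]
  -- the number `A` is nonnegative
  have hA : 0 ≤ A := by
    obtain ⟨-, h1⟩ := hβ a ⟨hta, haT⟩
    obtain ⟨-, F, -, h2, -⟩ := h1 j₀ le_rfl
    have h3 : (0 : ℝ) ≤ F.card := Nat.cast_nonneg _
    have h4 : (0 : ℝ) < (2 ^ j₀) ^ 2 := by positivity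
    by_contra h5
    push Not at h5
    nlinarith
  set E := Real.sqrt (XX (fun _ => 1) (amp (c a))) with hEdef
  have hE0 : 0 ≤ E := Real.sqrt_nonneg _
  have hE2 : E ^ 2 = XX (fun _ => 1) (amp (c a)) := Real.sq_sqrt (XX_nonneg fun _ => zero_le_one)
  have hA0 := As_nonneg 0
  set δ₀ : ℝ := ν / (156 * 256 * (As 0 * E + 1)) with hδ₀
  have hδ₀0 : 0 < δ₀ := by positivity
  obtain ⟨C₀, hC₀, hκ⟩ := kap_le hθ0 hθ j₀ hδ₀0
  set δ := ν / (156 * 256) with hδ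
  have hδ0 : 0 < δ := by positivity
  have hδ1 : As 0 * E * δ₀ ≤ δ := by
    have h1 : As 0 * E * δ₀ = δ * (As 0 * E / (As 0 * E + 1)) := by
      rw [hδ, hδ₀]
      field_simp
    rw [h1]
    have h2 : As 0 * E / (As 0 * E + 1) ≤ 1 := by
      rw [div_le_one (by positivity)]
      linarith
    nlinarith
  set C := As 0 * E * C₀ with hC
  have hC0 : 0 ≤ C := by positivity
  have hCh := (Ch_pos s).le
  set X2 : ℝ → ℝ := fun t => XX (fun k => (N k : ℝ) ^ 2) (amp (c t)) with hX2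
  have hX20 : ∀ t, 0 ≤ X2 t := fun t => XX_nonneg fun k => by positivity
  have hX2i : IntegrableOn X2 (Ico a T) := X2_integrable hf hm hν hmν ha0 haT
  set G : ℝ → ℝ := fun t => 156 * (8 * (C + 9 / 4 * (4 * A) / δ * X2 t)) + g t with hG
  have hG0 : ∀ t, 0 ≤ G t := fun t => by
    have := hg0 t
    have := hX20 t
    rw [hG]
    positivity
  have hGi : IntegrableOn G (Ico a T) := by
    refine Integrable.add ?_ (hgi.mono_set fun t ht => ⟨hta.trans_le ht.1, ht.2⟩)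
    have h1 : IntegrableOn (fun _ : ℝ => C) (Ico a T) := integrableOn_const (by simp) enorm_ne_top
    exact (((h1.add (hX2i.const_mul (9 / 4 * (4 * A) / δ))).const_mul 8).const_mul 156)
  suffices hprod : ∀ t ∈ Ico a T, |2 * Win.prod len (c t)| ≤
      2 * ν * XX (fun k => (N k : ℝ) ^ 3) (amp (c t)) + G t * XX len (amp (c t)) by
    obtain ⟨C', hC'⟩ := hel_high (c := c) hf hm hν hmν ha0 hG0 hGi hprod
    exact bounded_of_XX h hν ha0 haT hC'
  intro t ht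
  have htI : t ∈ Ioo 0 T := ⟨ha0.trans_le ht.1, ht.2⟩
  have htJ : t ∈ Ioo t₀ T := ⟨hta.trans_le ht.1, ht.2⟩
  obtain ⟨hβ0, hβt⟩ := hβ t htJ
  have hRV := hf.rapV htI
  have hR := hRV.rapR
  have hEt : XX (fun _ => 1) (amp (c t)) ≤ E ^ 2 :=
    (hf.energy_anti hm hν.le hmν ha0 ht).trans hE2.ge
  classical
  have hex : ∀ j : ℕ, ∃ (σ : ℝ) (F : Finset K3), (σ = 1 ∨ σ = -1) ∧
      (F.card : ℝ) ≤ 4 * A * 4 ^ j ∧ (j₀ ≤ j + 1 → helWindowOff σ s θ (2 ^ (j + 1)) F (u t) ≤ β t ^ 2) := by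
    intro j
    by_cases hj : j₀ ≤ j + 1
    · obtain ⟨σ, F, h1, h2, h3⟩ := hβt (j + 1) hj
      refine ⟨σ, F, h1, h2.trans (le_of_eq ?_), fun _ => h3⟩
      rw [show (4 : ℝ) ^ j = 2 ^ j * 2 ^ j by
        rw [show (4 : ℝ) = 2 * 2 by norm_num, mul_pow]]
      ring
    · refine ⟨1, ∅, Or.inl rfl, ?_, fun h => absurd h hj⟩
      simp only [Finset.card_empty, Nat.cast_zero]
      positivity
  choose σ F hσ hF hwin' using hex
  have hwin : ∀ j, ∑ l ∈ box (2 ^ j) \ box (kap θ j₀ j), (N l : ℝ) ^ (2 * s) *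
      out F (fun j => amp (hel (σ j) (c t))) j l ^ 2 ≤ β t ^ 2 := by
    intro j
    rcases lt_or_ge (j + 1) j₀ with hj | hj
    · have : box (2 ^ j) \ box (kap θ j₀ j) = ∅ := by
        unfold kap
        rw [if_pos hj, Finset.sdiff_self]
      rw [this, Finset.sum_empty]
      positivity
    · exact (helWindowOff_ge (by linarith) (not_lt.2 hj) σ rfl (u t)).trans (hwin' j hj)
  have hΛ : ∀ j, Sn (amp (c t)) (kap θ j₀ j) ≤ δ * 4 ^ j + C := by
    intro j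
    refine (Sn_low hR hE0 hEt _).trans ?_
    calc As 0 * (kap θ j₀ j : ℝ) ^ (5 / 2 : ℝ) * E
        = As 0 * E * (kap θ j₀ j : ℝ) ^ (5 / 2 : ℝ) := by ring
      _ ≤ As 0 * E * (δ₀ * 4 ^ j + C₀) := by
          have := hκ j
          gcongr
      _ = As 0 * E * δ₀ * 4 ^ j + C := by rw [hC]; ring
      _ ≤ δ * 4 ^ j + C := by gcongr
  have key := prod_len_le' hRV (hf.real t htI) (hf.div t htI) hσ hs1 hs2 hβ0
    (by positivity : 0 ≤ 4 * A) hF hwin hδ0 hC0 hΛ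
  refine key.trans ?_
  have x3 : 0 ≤ XX (fun k => (N k : ℝ) ^ 3) (amp (c t)) := XX_nonneg fun k => by positivity
  have x1 : 0 ≤ XX (fun k => (N k : ℝ) ^ 1) (amp (c t)) := XX_nonneg fun k => by positivity
  have h1 : XX (fun k => (N k : ℝ) ^ 1) (amp (c t)) ≤ XX len (amp (c t)) :=
    XX_mono (pol_pow 1) pol_len hR fun k => by rw [pow_one]; exact len_ge k
  have hgt := hg0 t
  have hXt := hX20 t
  have h2 : 156 * (Ch s * β t * XX (fun k => (N k : ℝ) ^ (7 / 2 - s)) (amp (c t)))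
      ≤ ν * XX (fun k => (N k : ℝ) ^ 3) (amp (c t))
        + g t * XX (fun k => (N k : ℝ) ^ 1) (amp (c t)) := by
    unfold XX
    have s3 := XX_summable (pol_pow 3) hR
    have s1 := XX_summable (pol_pow 1) hR
    have s2 := XX_summable (pol_rpow (γ := 7 / 2 - s) (by linarith) (by linarith)) hR
    rw [← mul_assoc, ← tsum_mul_left, ← tsum_mul_left, ← tsum_mul_left,
      ← (s3.mul_left ν).tsum_add (s1.mul_left (g t))]
    refine (s2.mul_left _).tsum_le_tsum (fun k => ?_) ((s3.mul_left ν).add (s1.mul_left (g t)))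
    have h3 := hg t htJ (N k) (Nat.cast_nonneg _)
    have hN : (0 : ℝ) ≤ N k := Nat.cast_nonneg _
    have e : (N k : ℝ) ^ (7 / 2 - s) = (N k : ℝ) ^ (5 / 2 - s) * N k := by
      rw [← Real.rpow_add_one' hN (by linarith)]
      congr 1
      ring
    calc 156 * (Ch s * β t) * ((N k : ℝ) ^ (7 / 2 - s) * amp (c t) k ^ 2)
        = (156 * Ch s * β t * (N k : ℝ) ^ (5 / 2 - s)) * (N k * amp (c t) k ^ 2) := by
          rw [e]; ring
      _ ≤ (ν * (N k : ℝ) ^ 2 + g t) * (N k * amp (c t) k ^ 2) := by gcongr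
      _ = _ := by ring
  have h4 : 156 * (256 * δ * XX (fun k => (N k : ℝ) ^ 3) (amp (c t)))
      ≤ ν * XX (fun k => (N k : ℝ) ^ 3) (amp (c t)) := by
    apply le_of_eq
    rw [hδ]
    ring
  have h5 : 156 * (8 * (C + 9 / 4 * (4 * A) / δ * X2 t) *
      XX (fun k => (N k : ℝ) ^ 1) (amp (c t)))
      ≤ 156 * (8 * (C + 9 / 4 * (4 * A) / δ * X2 t)) * XX len (amp (c t)) := by
    calc 156 * (8 * (C + 9 / 4 * (4 * A) / δ * X2 t) * XX (fun k => (N k : ℝ) ^ 1) (amp (c t)))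
        = 156 * (8 * (C + 9 / 4 * (4 * A) / δ * X2 t)) *
          XX (fun k => (N k : ℝ) ^ 1) (amp (c t)) := by ring
      _ ≤ _ := by gcongr
  have h6 : g t * XX (fun k => (N k : ℝ) ^ 1) (amp (c t)) ≤ g t * XX len (amp (c t)) := by gcongr
  have h7 : G t * XX len (amp (c t)) = 156 * (8 * (C + 9 / 4 * (4 * A) / δ * X2 t)) *
      XX len (amp (c t)) + g t * XX len (amp (c t)) := by
    rw [hG]
    ring
  rw [h7]
  have h8 : 156 * (256 * δ * XX (fun k => (N k : ℝ) ^ 3) (amp (c t))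
      + 8 * (C + 9 / 4 * (4 * A) / δ * XX (fun k => (N k : ℝ) ^ 2) (amp (c t))) *
        XX (fun k => (N k : ℝ) ^ 1) (amp (c t))
      + Ch s * β t * XX (fun k => (N k : ℝ) ^ (7 / 2 - s)) (amp (c t)))
      = 156 * (256 * δ * XX (fun k => (N k : ℝ) ^ 3) (amp (c t)))
      + 156 * (8 * (C + 9 / 4 * (4 * A) / δ * X2 t) * XX (fun k => (N k : ℝ) ^ 1) (amp (c t)))
      + 156 * (Ch s * β t * XX (fun k => (N k : ℝ) ^ (7 / 2 - s)) (amp (c t))) := by
    rw [hX2]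
    ring
  rw [h8]
  linarith

/-- the criterion for `q < ∞` -/
theorem crit_q' {ν T : ℝ} {u : ℝ → V → V} {p : ℝ → V → ℝ} (h : IsSol ν T u p) (hν : 0 < ν)
    {θ : ℝ} (hθ0 : 0 < θ) (hθ : θ < 4 / 5) {s : ℝ} (hs1 : 1 / 2 < s) (hs2 : s < 5 / 2)
    {t₀ : ℝ} (ht₀ : t₀ ∈ Ico 0 T)
    {β : ℝ → ℝ} {j₀ : ℕ} {A : ℝ} (hβ : ∀ t ∈ Ioo t₀ T, 0 ≤ β t ∧ ∀ j : ℕ, j₀ ≤ j →
      ∃ (σ : ℝ) (F : Finset K3), (σ = 1 ∨ σ = -1) ∧ (F.card : ℝ) ≤ A * (2 ^ j) ^ 2 ∧
        helWindowOff σ s θ (2 ^ j) F (u t) ≤ β t ^ 2)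
    (hβi : IntegrableOn (fun t => β t ^ (4 / (2 * s - 1))) (Ioo t₀ T)) :
    ∃ C, ∀ t ∈ Ico 0 T, ∀ x i, |u t x i| ≤ C := by
  have h2s : 0 < 2 * s - 1 := by linarith
  have hCh := (Ch_pos s).le
  set q : ℝ := 4 / (2 * s - 1) with hq
  have e1 : (5 / 2 - s) / (2 - (5 / 2 - s)) = (5 - 2 * s) / (2 * s - 1) := by
    rw [div_eq_div_iff (by linarith) (by linarith)]
    ring
  have e2 : 2 / (2 - (5 / 2 - s)) = q := by
    rw [hq, div_eq_div_iff (by linarith) (by linarith)]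
    ring
  set D : ℝ := ν ^ (-((5 - 2 * s) / (2 * s - 1))) * (156 * Ch s) ^ q with hD
  have hD0 : 0 ≤ D := by positivity
  refine crit' h hν hθ0 hθ hs1.le hs2 ht₀ hβ (g := fun t => D * |β t| ^ q) (fun t => by positivity)
    ?_ fun t ht x hx => ?_
  · have : IntegrableOn (fun t => D * β t ^ q) (Ioo t₀ T) := hβi.const_mul D
    refine this.congr_fun (fun t ht => ?_) measurableSet_Ioo
    simp only
    rw [abs_of_nonneg (hβ t ht).1]
  · have hβ0 := (hβ t ht).1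
    have hy := young2 (γ := 5 / 2 - s) (x := x) (b := 156 * Ch s * β t) (ν := ν) (by linarith)
      (by linarith) hx (by positivity) hν
    rw [e1, e2] at hy
    refine hy.trans (le_of_eq ?_)
    rw [Real.mul_rpow (by positivity) hβ0, abs_of_nonneg hβ0, hD]
    ring

/-- the endpoint -/
theorem crit_inf' {ν T : ℝ} {u : ℝ → V → V} {p : ℝ → V → ℝ} (h : IsSol ν T u p) (hν : 0 < ν)
    {θ : ℝ} (hθ0 : 0 < θ) (hθ : θ < 4 / 5) {t₀ : ℝ} (ht₀ : t₀ ∈ Ico 0 T) {j₀ : ℕ} {A : ℝ}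
    (hβ : ∀ t ∈ Ioo t₀ T, ∀ j : ℕ, j₀ ≤ j →
      ∃ (σ : ℝ) (F : Finset K3), (σ = 1 ∨ σ = -1) ∧ (F.card : ℝ) ≤ A * (2 ^ j) ^ 2 ∧
        helWindowOff σ (1 / 2) θ (2 ^ j) F (u t) ≤ (1 / (156 * Ch (1 / 2)) * ν) ^ 2) :
    ∃ C, ∀ t ∈ Ico 0 T, ∀ x i, |u t x i| ≤ C := by
  have hCh := Ch_pos (1 / 2)
  refine crit' h hν hθ0 hθ (s := 1 / 2) le_rfl (by norm_num) ht₀
    (β := fun _ => 1 / (156 * Ch (1 / 2)) * ν) (g := fun _ => 0)
    (fun t ht => ⟨by positivity, hβ t ht⟩) (fun _ => le_rfl) integrableOn_zero fun t _ x _ => ?_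
  have e : ((5 : ℝ) / 2 - 1 / 2) = ((2 : ℕ) : ℝ) := by norm_num
  rw [e, Real.rpow_natCast, add_zero]
  apply le_of_eq
  field_simp

end Pool.Agent.Q63.Hel2
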