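import Pool.Agent.Q63.Hel.Main
import Pool.Agent.Q63.Hel2.Defs

/-!
Removing two-dimensional sets of frequencies from the windows of the helical parts.
-/

open Set Filter Topology
open scoped ENNReal

namespace Pool.Agent.Q63.Hel2

open H459R3.NS Pool.Agent.Q63.Win Pool.Agent.Q63.Hel

section

variable {w : K3 → ℝ} {e : ℕ → K3 → ℝ} {κ : ℕ → ℕ}

open scoped Classical in
/-- the part in `F` -/
noncomputable def inn (F : ℕ → Finset K3) (e : ℕ → K3 → ℝ) (j : ℕ) (k : K3) : ℝ :=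
  if k ∈ F j then e j k else 0

open scoped Classical in
/-- the part off `F` -/
noncomputable def out (F : ℕ → Finset K3) (e : ℕ → K3 → ℝ) (j : ℕ) (k : K3) : ℝ :=
  if k ∈ F j then 0 else e j k

theorem out_add_inn (F : ℕ → Finset K3) (e : ℕ → K3 → ℝ) (j : ℕ) (k : K3) :
    out F e j k + inn F e j k = e j k := by
  unfold out inn
  split_ifs <;> simp

theorem inn_nonneg (F : ℕ → Finset K3) (he : ∀ j k, 0 ≤ e j k) (j : ℕ) (k : K3) :
    0 ≤ inn F e j k := by
  unfold inn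
  split_ifs
  exacts [he j k, le_rfl]

theorem out_nonneg (F : ℕ → Finset K3) (he : ∀ j k, 0 ≤ e j k) (j : ℕ) (k : K3) :
    0 ≤ out F e j k := by
  unfold out
  split_ifs
  exacts [le_rfl, he j k]

theorem up_add (κ : ℕ → ℕ) (F : ℕ → Finset K3) (e : ℕ → K3 → ℝ) (j : ℕ) (k : K3) :
    up κ (out F e) j k + up κ (inn F e) j k = up κ e j k := by
  unfold up
  split_ifs
  · exact out_add_inn F e j k
  · simp

theorem PP_add_left (j : ℕ) (f g h : K3 → ℝ) (l : K3) :
    PP j (fun k => f k + g k) h l = PP j f h l + PP j g h l := by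
  unfold PP
  rw [← Finset.sum_add_distrib]
  refine Finset.sum_congr rfl fun k _ => ?_
  split_ifs
  · ring
  · simp

theorem PP_add_right (j : ℕ) (f g h : K3 → ℝ) (l : K3) :
    PP j h (fun k => f k + g k) l = PP j h f l + PP j h g l := by
  unfold PP
  rw [← Finset.sum_add_distrib]
  refine Finset.sum_congr rfl fun k _ => ?_
  split_ifs
  · ring
  · simp

theorem PP_comm (j : ℕ) (f g : K3 → ℝ) (l : K3) : PP j f g l = PP j g f l := by
  unfold PP
  rw [← Finset.sum_filter, ← Finset.sum_filter]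
  refine Finset.sum_nbij' (fun k => -l - k) (fun k => -l - k) ?_ ?_ ?_ ?_ ?_
  · intro k hk
    rw [Finset.mem_filter] at hk ⊢
    refine ⟨hk.2, ?_⟩
    rw [show -l - (-l - k) = k by abel]
    exact hk.1
  · intro k hk
    rw [Finset.mem_filter] at hk ⊢
    refine ⟨hk.2, ?_⟩
    rw [show -l - (-l - k) = k by abel]
    exact hk.1
  · intro k _
    show -l - (-l - k) = k
    abel
  · intro k _
    show -l - (-l - k) = k
    abel
  · intro k _
    show f k * g (-l - k) = g (-l - k) * f (-l - (-l - k))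
    rw [show -l - (-l - k) = k by abel]
    ring

theorem PP_nonneg (j : ℕ) {f g : K3 → ℝ} (hf : ∀ k, 0 ≤ f k) (hg : ∀ k, 0 ≤ g k) (l : K3) :
    0 ≤ PP j f g l := by
  unfold PP
  refine Finset.sum_nonneg fun k _ => ?_
  have := hf k
  have := hg (-l - k)
  split_ifs
  · positivity
  · exact le_rfl

/-- sums over a set of few frequencies -/
theorem few {F : Finset K3} {y : ℝ} (hF : (F.card : ℝ) ≤ y ^ 2) (hy : 0 ≤ y) (f : K3 → ℝ)
    {S : Finset K3} (hS : S ⊆ F) {z : ℝ} (hz : 0 ≤ z) (hf : ∑ k ∈ S, f k ^ 2 ≤ z ^ 2) :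
    ∑ k ∈ S, f k ≤ y * z := by
  have hcs := Real.sum_mul_le_sqrt_mul_sqrt S (fun _ => (1 : ℝ)) f
  simp only [one_mul, one_pow, Finset.sum_const, nsmul_eq_mul, mul_one] at hcs
  refine hcs.trans ?_
  have h1 : (S.card : ℝ) ≤ y ^ 2 := by
    have : (S.card : ℝ) ≤ F.card := by exact_mod_cast Finset.card_le_card hS
    linarith
  exact mul_le_mul (Real.sqrt_le_iff.2 ⟨hy, h1⟩) (Real.sqrt_le_iff.2 ⟨hz, hf⟩)
    (Real.sqrt_nonneg _) hy

/-- the triads with a mode in `F` at the place of `k` -/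
theorem sum_PP_le (hw : ∀ k, 0 ≤ w k) {f : K3 → ℝ} (hf : ∀ k, 0 ≤ f k) (j : ℕ) {y z : ℝ}
    (hz : 0 ≤ z) (hf1 : ∑ k ∈ TT j, f k ≤ y * Real.sqrt (BB w j))
    (hX : ∑ l ∈ box (2 ^ j), ((N l : ℝ) * w l) ^ 2 ≤ z ^ 2) :
    ∑ l ∈ box (2 ^ j), N l * w l * PP j f w l ≤ y * z * BB w j := by
  have hB := BB_nonneg w j
  unfold PP
  simp_rw [Finset.mul_sum]
  rw [Finset.sum_comm]
  have h1 : ∀ k ∈ TT j, ∑ l ∈ box (2 ^ j),
      (N l : ℝ) * w l * (if -l - k ∈ TT j then f k * w (-l - k) else 0)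
      ≤ f k * (z * Real.sqrt (BB w j)) := by
    intro k _
    have e1 : ∀ l ∈ box (2 ^ j), (N l : ℝ) * w l * (if -l - k ∈ TT j then f k * w (-l - k) else 0)
        = if -l - k ∈ TT j then f k * ((N l * w l) * w (-l - k)) else 0 := by
      intro l _
      split_ifs <;> ring
    rw [Finset.sum_congr rfl e1, ← Finset.sum_filter, ← Finset.mul_sum]
    have := hf k
    gcongr
    refine (Real.sum_mul_le_sqrt_mul_sqrt _ _ _).trans ?_
    refine mul_le_mul ?_ (Real.sqrt_le_sqrt ?_) (Real.sqrt_nonneg _) hz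
    · rw [Real.sqrt_le_iff]
      refine ⟨hz, le_trans ?_ hX⟩
      exact Finset.sum_le_sum_of_subset_of_nonneg (Finset.filter_subset _ _) fun _ _ _ =>
        sq_nonneg _
    · have hinj : Set.InjOn (fun l : K3 => -l - k) ((box (2 ^ j)).filter fun l => -l - k ∈ TT j) := by
        intro a _ b _ hab
        simpa using hab
      rw [← Finset.sum_image (f := fun m => w m ^ 2) hinj]
      refine Finset.sum_le_sum_of_subset_of_nonneg (fun m hm => ?_) fun _ _ _ => sq_nonneg _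
      obtain ⟨l, hl, rfl⟩ := Finset.mem_image.1 hm
      exact (Finset.mem_filter.1 hl).2
  refine (Finset.sum_le_sum h1).trans ?_
  rw [← Finset.sum_mul]
  calc (∑ k ∈ TT j, f k) * (z * Real.sqrt (BB w j))
      ≤ (y * Real.sqrt (BB w j)) * (z * Real.sqrt (BB w j)) := by gcongr
    _ = y * z * (Real.sqrt (BB w j) * Real.sqrt (BB w j)) := by ring
    _ = y * z * BB w j := by rw [Real.mul_self_sqrt hB]

theorem UU_split (hw : ∀ k, 0 ≤ w k) (he : ∀ j k, 0 ≤ e j k) (hew : ∀ j k, e j k ≤ w k)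
    {F : ℕ → Finset K3} (j : ℕ) {y z : ℝ} (hy : 0 ≤ y) (hz : 0 ≤ z)
    (hF : ((F j).card : ℝ) ≤ y ^ 2) (hX : ∑ l ∈ box (2 ^ j), ((N l : ℝ) * w l) ^ 2 ≤ z ^ 2) :
    UU κ e w j ≤ UU κ (out F e) w j + 2 ^ j * (3 * (y * z) * BB w j) := by
  classical
  have hB := BB_nonneg w j
  have hin : ∀ k, inn F e j k ≤ w k := fun k => by
    unfold inn
    split_ifs
    exacts [hew j k, hw k]
  have hup : ∀ k, up κ (inn F e) j k ≤ inn F e j k := fun k => by
    unfold up
    split_ifs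
    exacts [le_rfl, inn_nonneg F he j k]
  have hup0 : ∀ k, 0 ≤ up κ (inn F e) j k := fun k => by
    unfold up
    split_ifs
    exacts [inn_nonneg F he j k, le_rfl]
  -- the sum of the modes in `F` at the top of the window
  have hsum : ∑ k ∈ TT j, up κ (inn F e) j k ≤ y * Real.sqrt (BB w j) := by
    have e1 : ∑ k ∈ TT j, up κ (inn F e) j k
        ≤ ∑ k ∈ (TT j).filter (fun k => k ∈ F j), w k := by
      rw [Finset.sum_filter]
      refine Finset.sum_le_sum fun k _ => ?_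
      refine (hup k).trans ?_
      unfold inn
      split_ifs
      exacts [hew j k, le_rfl]
    refine e1.trans ?_
    refine few hF hy w (fun k hk => (Finset.mem_filter.1 hk).2) (Real.sqrt_nonneg _) ?_
    rw [Real.sq_sqrt hB]
    exact Finset.sum_le_sum_of_subset_of_nonneg (Finset.filter_subset _ _) fun _ _ _ => sq_nonneg _
  have hlow : ∑ l ∈ box (2 ^ j), (N l : ℝ) * inn F e j l ≤ y * z := by
    have e1 : ∑ l ∈ box (2 ^ j), (N l : ℝ) * inn F e j l
        ≤ ∑ l ∈ (box (2 ^ j)).filter (fun k => k ∈ F j), (N l : ℝ) * w l := by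
      rw [Finset.sum_filter]
      refine Finset.sum_le_sum fun k _ => ?_
      unfold inn
      split_ifs
      · have := hew j k
        gcongr
      · simp
    refine e1.trans ?_
    refine few hF hy (fun l => (N l : ℝ) * w l) (fun k hk => (Finset.mem_filter.1 hk).2) hz ?_
    refine le_trans ?_ hX
    exact Finset.sum_le_sum_of_subset_of_nonneg (Finset.filter_subset _ _) fun _ _ _ => sq_nonneg _
  have hmid := sum_PP_le (w := w) hw hup0 j hz hsum hX
  have hterm : ∀ l ∈ box (2 ^ j), (2 : ℝ) ^ j * (N l * (if N l ≤ κ j then w l * PP j w w l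
      else e j l * PP j w w l + w l * PP j (up κ e j) w l + w l * PP j w (up κ e j) l))
      ≤ 2 ^ j * (N l * (if N l ≤ κ j then w l * PP j w w l
      else out F e j l * PP j w w l + w l * PP j (up κ (out F e) j) w l
        + w l * PP j w (up κ (out F e) j) l))
      + 2 ^ j * ((N l * inn F e j l) * BB w j + 2 * (N l * w l * PP j (up κ (inn F e) j) w l)) := by
    intro l _
    have a1 := hw l
    have b1 := inn_nonneg F he j l
    have hN : (0 : ℝ) ≤ N l := Nat.cast_nonneg _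
    have hP0 := PP_nonneg j hup0 hw l
    have hPB : PP j w w l ≤ BB w j := by
      refine (PP_le j w w l).trans (le_of_eq ?_)
      exact Real.mul_self_sqrt hB
    split_ifs with h
    · have : 0 ≤ (2 : ℝ) ^ j * ((N l * inn F e j l) * BB w j
        + 2 * (N l * w l * PP j (up κ (inn F e) j) w l)) := by positivity
      linarith
    · have e1 : up κ e j = fun k => up κ (out F e) j k + up κ (inn F e) j k := by
        funext k
        rw [up_add]
      rw [e1, PP_add_left, PP_add_right, PP_comm j w (up κ (inn F e) j), ← out_add_inn F e j l]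
      have h2 : inn F e j l * PP j w w l ≤ inn F e j l * BB w j := by gcongr
      calc (2 : ℝ) ^ j * (N l * ((out F e j l + inn F e j l) * PP j w w l
            + w l * (PP j (fun k => up κ (out F e) j k) w l + PP j (fun k => up κ (inn F e) j k) w l)
            + w l * (PP j w (fun k => up κ (out F e) j k) l + PP j (up κ (inn F e) j) w l)))
          = 2 ^ j * (N l * (out F e j l * PP j w w l + w l * PP j (up κ (out F e) j) w l
            + w l * PP j w (up κ (out F e) j) l)) + 2 ^ j * (N l * (inn F e j l * PP j w w l)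
            + 2 * (N l * w l * PP j (up κ (inn F e) j) w l)) := by ring
        _ ≤ 2 ^ j * (N l * (out F e j l * PP j w w l + w l * PP j (up κ (out F e) j) w l
            + w l * PP j w (up κ (out F e) j) l)) + 2 ^ j * (N l * (inn F e j l * BB w j)
            + 2 * (N l * w l * PP j (up κ (inn F e) j) w l)) := by gcongr
        _ = _ := by ring
  unfold UU
  refine (Finset.sum_le_sum hterm).trans ?_
  rw [Finset.sum_add_distrib, ← Finset.mul_sum (box (2 ^ j)) (fun l =>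
    ((N l : ℝ) * inn F e j l) * BB w j + 2 * (N l * w l * PP j (up κ (inn F e) j) w l)),
    Finset.sum_add_distrib, ← Finset.sum_mul]
  have h3 : (∑ l ∈ box (2 ^ j), (N l : ℝ) * inn F e j l) * BB w j ≤ y * z * BB w j := by gcongr
  have h4 : (∑ l ∈ box (2 ^ j), (N l : ℝ) * inn F e j l) * BB w j
      + 2 * ∑ l ∈ box (2 ^ j), (N l : ℝ) * w l * PP j (up κ (inn F e) j) w l
      ≤ 3 * (y * z) * BB w j := by linarith
  rw [← Finset.mul_sum (box (2 ^ j)) (fun l => (N l : ℝ) * w l * PP j (up κ (inn F e) j) w l) 2]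
  gcongr

/-- the sum over the scales -/
theorem sum_UU' (hw : ∀ k, 0 ≤ w k) (hr : RapR w)
    (he : ∀ j k, 0 ≤ e j k) (hew : ∀ j k, e j k ≤ w k) {s β : ℝ} (hs1 : 1 / 2 ≤ s) (hs2 : s < 5 / 2)
    (hβ0 : 0 ≤ β) {F : ℕ → Finset K3} {A : ℝ} (hA : 0 ≤ A)
    (hF : ∀ j, ((F j).card : ℝ) ≤ A * 4 ^ j)
    (hβ : ∀ j, ∑ l ∈ box (2 ^ j) \ box (κ j), (N l : ℝ) ^ (2 * s) * out F e j l ^ 2 ≤ β ^ 2)
    {δ C : ℝ} (hδ : 0 < δ) (hC : 0 ≤ C) (hΛ : ∀ j, Sn w (κ j) ≤ δ * 4 ^ j + C) :
    ∑' j, ENNReal.ofReal (UU κ e w j) ≤ ENNReal.ofReal (256 * δ * XX (fun k => (N k : ℝ) ^ 3) w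
      + 8 * (C + 9 / 4 * A / δ * XX (fun k => (N k : ℝ) ^ 2) w) * XX (fun k => (N k : ℝ) ^ 1) w
      + Ch s * β * XX (fun k => (N k : ℝ) ^ (7 / 2 - s)) w) := by
  have hCh := (Ch_pos s).le
  set X2 := XX (fun k => (N k : ℝ) ^ 2) w with hX2
  have hX20 : 0 ≤ X2 := XX_nonneg fun k => by positivity
  have x1 : 0 ≤ XX (fun k => (N k : ℝ) ^ 3) w := XX_nonneg fun k => by positivity
  have x2 : 0 ≤ XX (fun k => (N k : ℝ) ^ 1) w := XX_nonneg fun k => by positivity
  have x3 : 0 ≤ XX (fun k => (N k : ℝ) ^ (7 / 2 - s)) w := XX_nonneg fun k => by positivity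
  set C' := 9 / 4 * A / δ * X2 with hC'
  have hC'0 : 0 ≤ C' := by positivity
  have hstep : ∀ j, UU κ e w j ≤ UU κ (out F e) w j
      + (δ * ((2 ^ j : ℝ) ^ (3 : ℝ) * BB w j) + C' * ((2 ^ j : ℝ) ^ (1 : ℝ) * BB w j)) := by
    intro j
    have hB := BB_nonneg w j
    have h44 : (4 : ℝ) ^ j = 2 ^ j * 2 ^ j := by
      rw [show (4 : ℝ) = 2 * 2 by norm_num, mul_pow]
    have h1 := UU_split (κ := κ) (F := F) hw he hew j (y := Real.sqrt A * 2 ^ j)
      (z := Real.sqrt X2) (by positivity) (Real.sqrt_nonneg _)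
      (by
        rw [mul_pow, Real.sq_sqrt hA]
        refine (hF j).trans (le_of_eq ?_)
        rw [h44]
        ring)
      (by
        rw [Real.sq_sqrt hX20, hX2]
        simp_rw [mul_pow]
        exact (XX_summable (pol_pow 2) hr).sum_le_tsum _ fun l _ => by positivity)
    refine h1.trans ?_
    have e3 : (2 ^ j : ℝ) ^ (3 : ℝ) = 2 ^ j * 4 ^ j := by
      rw [show (3 : ℝ) = ((3 : ℕ) : ℝ) by norm_num, Real.rpow_natCast, h44]
      ring
    rw [e3, Real.rpow_one]
    have h5 : 3 * (Real.sqrt A * 2 ^ j * Real.sqrt X2) ≤ δ * 4 ^ j + C' := by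
      set a := Real.sqrt A with ha
      set x := Real.sqrt X2 with hx
      have ha2 : A = a ^ 2 := (Real.sq_sqrt hA).symm
      have hx2 : X2 = x ^ 2 := (Real.sq_sqrt hX20).symm
      rw [hC', ha2, hx2, h44]
      have e6 : δ * ((2 : ℝ) ^ j * 2 ^ j) + 9 / 4 * a ^ 2 / δ * x ^ 2 - 3 * (a * 2 ^ j * x)
          = (2 * δ * 2 ^ j - 3 * a * x) ^ 2 / (4 * δ) := by
        field_simp
        ring
      have e7 : 0 ≤ (2 * δ * 2 ^ j - 3 * a * x) ^ 2 / (4 * δ) := by positivity
      linarith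
    have h6 : (2 : ℝ) ^ j * (3 * (Real.sqrt A * 2 ^ j * Real.sqrt X2) * BB w j)
        ≤ 2 ^ j * ((δ * 4 ^ j + C') * BB w j) := by gcongr
    calc UU κ (out F e) w j + 2 ^ j * (3 * (Real.sqrt A * 2 ^ j * Real.sqrt X2) * BB w j)
        ≤ UU κ (out F e) w j + 2 ^ j * ((δ * 4 ^ j + C') * BB w j) := by gcongr
      _ = _ := by ring
  have hbase := sum_UU (κ := κ) hw hr (out_nonneg F he) hs1 hs2 hβ0 hβ hδ.le hC hΛ
  have hB := BB_nonneg w
  have n1 : ∀ (γ : ℝ) j, 0 ≤ (2 ^ j : ℝ) ^ γ * BB w j := fun γ j => by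
    have := hB j
    positivity
  calc ∑' j, ENNReal.ofReal (UU κ e w j)
      ≤ ∑' j, (ENNReal.ofReal (UU κ (out F e) w j)
        + (ENNReal.ofReal δ * ENNReal.ofReal ((2 ^ j : ℝ) ^ (3 : ℝ) * BB w j)
        + ENNReal.ofReal C' * ENNReal.ofReal ((2 ^ j : ℝ) ^ (1 : ℝ) * BB w j))) := by
        refine ENNReal.tsum_le_tsum fun j => ?_
        refine (ENNReal.ofReal_le_ofReal (hstep j)).trans ?_
        refine ENNReal.ofReal_add_le.trans ?_
        gcongr
        refine ENNReal.ofReal_add_le.trans ?_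
        rw [ENNReal.ofReal_mul hδ.le, ENNReal.ofReal_mul hC'0]
    _ = ∑' j, ENNReal.ofReal (UU κ (out F e) w j)
        + (ENNReal.ofReal δ * ∑' j, ENNReal.ofReal ((2 ^ j : ℝ) ^ (3 : ℝ) * BB w j)
        + ENNReal.ofReal C' * ∑' j, ENNReal.ofReal ((2 ^ j : ℝ) ^ (1 : ℝ) * BB w j)) := by
        rw [ENNReal.tsum_add, ENNReal.tsum_add, ENNReal.tsum_mul_left, ENNReal.tsum_mul_left]
    _ ≤ ENNReal.ofReal (128 * δ * XX (fun k => (N k : ℝ) ^ 3) w
      + 8 * C * XX (fun k => (N k : ℝ) ^ 1) w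
      + Ch s * β * XX (fun k => (N k : ℝ) ^ (7 / 2 - s)) w)
        + (ENNReal.ofReal δ *
          ENNReal.ofReal (2 * 4 ^ (3 : ℝ) * XX (fun k => (N k : ℝ) ^ (3 : ℝ)) w)
        + ENNReal.ofReal C' *
          ENNReal.ofReal (2 * 4 ^ (1 : ℝ) * XX (fun k => (N k : ℝ) ^ (1 : ℝ)) w)) := by
        gcongr
        · exact sum_BB (by norm_num) (by norm_num) hr
        · exact sum_BB (by norm_num) (by norm_num) hr
    _ = _ := by
        have q1 : XX (fun k => (N k : ℝ) ^ (3 : ℝ)) w = XX (fun k => (N k : ℝ) ^ 3) w := by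
          unfold XX
          refine tsum_congr fun k => ?_
          have : (N k : ℝ) ^ (3 : ℝ) = (N k : ℝ) ^ 3 := by
            rw [← Real.rpow_natCast]
            norm_num
          simp only [this]
        have q2 : XX (fun k => (N k : ℝ) ^ (1 : ℝ)) w = XX (fun k => (N k : ℝ) ^ 1) w := by
          unfold XX
          refine tsum_congr fun k => ?_
          simp only [Real.rpow_one, pow_one]
        have q3 : (4 : ℝ) ^ (3 : ℝ) = 64 := by norm_num
        rw [q1, q2, q3, Real.rpow_one, ← ENNReal.ofReal_mul hδ.le, ← ENNReal.ofReal_mul hC'0,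
          ← ENNReal.ofReal_add (by positivity) (by positivity),
          ← ENNReal.ofReal_add (by positivity) (by positivity)]
        congr 1
        ring

end

/-- The estimate of the production of the norm with the weight `|k|`: the local triads are
estimated by the helical part with the sign `σ j` off the set `F j`. -/
theorem prod_len_le' {c : Fam} (h : RapV c)
    (hreal : ∀ k i, c (-k) i = (starRingEnd ℂ) (c k i))
    (hdiv : ∀ k, ∑ i, (k i : ℂ) * c k i = 0) {κ : ℕ → ℕ} {σ : ℕ → ℝ}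
    (hσ : ∀ j, σ j = 1 ∨ σ j = -1) {s β : ℝ} (hs1 : 1 / 2 ≤ s) (hs2 : s < 5 / 2) (hβ0 : 0 ≤ β)
    {F : ℕ → Finset K3} {A : ℝ} (hA : 0 ≤ A) (hF : ∀ j, ((F j).card : ℝ) ≤ A * 4 ^ j)
    (hβ : ∀ j, ∑ l ∈ box (2 ^ j) \ box (κ j), (N l : ℝ) ^ (2 * s) *
      out F (fun j => amp (hel (σ j) c)) j l ^ 2 ≤ β ^ 2)
    {δ C : ℝ} (hδ : 0 < δ) (hC : 0 ≤ C) (hΛ : ∀ j, Sn (amp c) (κ j) ≤ δ * 4 ^ j + C) :
    |2 * Win.prod len c| ≤ 156 * (256 * δ * XX (fun k => (N k : ℝ) ^ 3) (amp c)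
      + 8 * (C + 9 / 4 * A / δ * XX (fun k => (N k : ℝ) ^ 2) (amp c)) *
        XX (fun k => (N k : ℝ) ^ 1) (amp c)
      + Ch s * β * XX (fun k => (N k : ℝ) ^ (7 / 2 - s)) (amp c)) := by
  have h1 := prod_le h hreal hdiv κ hσ
  have he : ∀ j k, 0 ≤ (fun j => amp (hel (σ j) c)) j k := fun j k => amp_nonneg _ k
  have hew : ∀ j k, (fun j => amp (hel (σ j) c)) j k ≤ amp c k := fun j k =>
    amp_hel_le (by rcases hσ j with h | h <;> rw [h] <;> norm_num) c k
  have hw := amp_nonneg c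
  have hCh := (Ch_pos s).le
  have x1 : 0 ≤ XX (fun k => (N k : ℝ) ^ 3) (amp c) := XX_nonneg fun k => by positivity
  have x4 : 0 ≤ XX (fun k => (N k : ℝ) ^ 2) (amp c) := XX_nonneg fun k => by positivity
  have x2 : 0 ≤ XX (fun k => (N k : ℝ) ^ 1) (amp c) := XX_nonneg fun k => by positivity
  have x3 : 0 ≤ XX (fun k => (N k : ℝ) ^ (7 / 2 - s)) (amp c) := XX_nonneg fun k => by positivity
  rw [← ENNReal.ofReal_le_ofReal_iff (by positivity)]
  refine h1.trans ?_
  calc ∑' z, ENNReal.ofReal (26 * (KK z * GG κ (fun j => amp (hel (σ j) c)) (amp c) z))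
      = ENNReal.ofReal 26 *
        ∑' z, ENNReal.ofReal (KK z * GG κ (fun j => amp (hel (σ j) c)) (amp c) z) := by
        rw [← ENNReal.tsum_mul_left]
        refine tsum_congr fun z => ?_
        rw [ENNReal.ofReal_mul (by norm_num)]
    _ ≤ ENNReal.ofReal 26 * (6 * ENNReal.ofReal (256 * δ * XX (fun k => (N k : ℝ) ^ 3) (amp c)
      + 8 * (C + 9 / 4 * A / δ * XX (fun k => (N k : ℝ) ^ 2) (amp c)) *
        XX (fun k => (N k : ℝ) ^ 1) (amp c)
      + Ch s * β * XX (fun k => (N k : ℝ) ^ (7 / 2 - s)) (amp c))) := by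
        gcongr
        refine (tsum_KK_le he hw).trans ?_
        gcongr
        exact (tsum_cg_le hw he).trans (sum_UU' hw h.rapR he hew hs1 hs2 hβ0 hA hF hβ hδ hC hΛ)
    _ = _ := by
        have : (6 : ℝ≥0∞) = ENNReal.ofReal 6 := by norm_num
        rw [this, ← ENNReal.ofReal_mul (by norm_num), ← ENNReal.ofReal_mul (by norm_num)]
        congr 1
        ring

end Pool.Agent.Q63.Hel2
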